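import Mathlib

set_option autoImplicit false

namespace Pool.Agent.Results.MP_c076ed_nt.IntegralPoints

/-- `x` is preperiodic for the polynomial `f`: its forward orbit repeats. -/
def IsPreper {R : Type} [CommRing R] (f : Polynomial R) (x : R) : Prop :=
  ∃ m n : ℕ, m < n ∧ (fun y => f.eval y)^[m] x = (fun y => f.eval y)^[n] x

/-- the counting argument over the integers -/
lemma comb {ι : Type} [DecidableEq ι] (S : Finset ι) (k : ι → ℤ)
    (hk : ∀ x ∈ S, ∀ y ∈ S, k x = k y → x = y) (φ : ι → ι) (hφ : ∀ x ∈ S, φ x ∈ S) (d : ℕ)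
    (H : ∀ e w : ℤ, (S.filter (fun x => k (φ x) = e * k x + w)).card ≤ d ∧
      ∀ x ∈ S, (∏ a ∈ S.filter (fun x => k (φ x) = e * k x + w), (k x - k a)) ∣
        k (φ x) - (e * k x + w)) :
    S.card ≤ max 5 d := by
  classical
  rcases S.eq_empty_or_nonempty with hS | hS
  · rw [hS]; simp
  obtain ⟨xm, hxm, hmin⟩ := Finset.exists_min_image S k hS
  obtain ⟨xM, hxM, hmax⟩ := Finset.exists_max_image S k hS
  set μ := k xm with hμ
  set ν := k xM with hν
  -- few points if the range is short
  by_cases hL : ν - μ ≤ 4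
  · have h1 : S.card ≤ (Finset.Icc μ (μ + 4)).card := by
      apply Finset.card_le_card_of_injOn k
      · intro x hx
        have := hmin x hx
        have := hmax x hx
        simp only [Finset.coe_Icc, Set.mem_Icc]
        constructor <;> omega
      · intro x hx y hy hxy
        exact hk x hx y hy hxy
    have h2 : (Finset.Icc μ (μ + 4)).card = 5 := by
      rw [Int.card_Icc]
      omega
    omega
  push Not at hL
  -- the reference function
  have key : ∃ e w : ℤ, k (φ xm) = e * k xm + w ∧ k (φ xM) = e * k xM + w ∧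
      ∀ x ∈ S, |k (φ x) - (e * k x + w)| ≤ ν - μ := by
    have hbd : ∀ x ∈ S, μ ≤ k (φ x) ∧ k (φ x) ≤ ν := fun x hx =>
      ⟨hmin _ (hφ x hx), hmax _ (hφ x hx)⟩
    have hbd' : ∀ x ∈ S, μ ≤ k x ∧ k x ≤ ν := fun x hx => ⟨hmin _ hx, hmax _ hx⟩
    have hdiv : (ν - μ) ∣ k (φ xM) - k (φ xm) := by
      have h := (H 0 (k (φ xm))).2 xM hxM
      have hmem : xm ∈ S.filter (fun x => k (φ x) = 0 * k x + k (φ xm)) := by
        rw [Finset.mem_filter]
        exact ⟨hxm, by ring⟩
      have h2 := (Finset.dvd_prod_of_mem (fun a => k xM - k a) hmem).trans h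
      have h3 : k (φ xM) - (0 * k xM + k (φ xm)) = k (φ xM) - k (φ xm) := by ring
      rw [h3] at h2
      exact h2
    obtain ⟨c, hc⟩ := hdiv
    have b1 := hbd xm hxm
    have b2 := hbd xM hxM
    have hpos : 0 < ν - μ := by omega
    have hc1 : c ≤ 1 := by
      by_contra hcon
      push Not at hcon
      nlinarith
    have hc2 : -1 ≤ c := by
      by_contra hcon
      push Not at hcon
      nlinarith
    have hc3 : c = -1 ∨ c = 0 ∨ c = 1 := by omega
    rcases hc3 with h | h | h
    · refine ⟨-1, μ + ν, ?_, ?_, ?_⟩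
      · rw [h] at hc
        rw [← hμ]
        omega
      · rw [h] at hc
        rw [← hν]
        omega
      · intro x hx
        have h1 := hbd x hx
        have h2 := hbd' x hx
        rw [abs_le]
        constructor <;> omega
    · refine ⟨0, k (φ xm), by ring, ?_, ?_⟩
      · rw [h] at hc
        omega
      · intro x hx
        have h1 := hbd x hx
        rw [abs_le]
        constructor <;> omega
    · refine ⟨1, 0, ?_, ?_, ?_⟩
      · rw [h] at hc
        rw [← hμ]
        omega
      · rw [h] at hc
        rw [← hν]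
        omega
      · intro x hx
        have h1 := hbd x hx
        have h2 := hbd' x hx
        rw [abs_le]
        constructor <;> omega
  obtain ⟨e, w, hem, heM, habs⟩ := key
  obtain ⟨hA, hdvd⟩ := H e w
  set A := S.filter (fun x => k (φ x) = e * k x + w) with hAdef
  have hxmA : xm ∈ A := Finset.mem_filter.2 ⟨hxm, hem⟩
  have hxMA : xM ∈ A := Finset.mem_filter.2 ⟨hxM, heM⟩
  have hAS : A ⊆ S := Finset.filter_subset _ _
  by_cases hSA : S ⊆ A
  · exact (Finset.card_le_card hSA).trans (hA.trans (le_max_right _ _))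
  -- some point outside
  have hbound : ∀ x ∈ S, x ∉ A → |∏ a ∈ A, (k x - k a)| ≤ ν - μ := by
    intro x hx hxA
    have hne : k (φ x) - (e * k x + w) ≠ 0 := by
      intro h
      exact hxA (Finset.mem_filter.2 ⟨hx, by omega⟩)
    have h1 := hdvd x hx
    have h2 : |∏ a ∈ A, (k x - k a)| ≤ |k (φ x) - (e * k x + w)| := by
      have := Int.le_of_dvd (abs_pos.2 hne) ((abs_dvd_abs _ _).2 h1)
      exact this
    exact h2.trans (habs x hx)
  have hne : xM ≠ xm := by
    intro h
    rw [h] at hν
    omega
  have hsplit : ∀ x ∈ S, x ∉ A → (k x - μ) * (ν - k x) *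
      |∏ a ∈ (A.erase xm).erase xM, (k x - k a)| ≤ ν - μ := by
    intro x hx hxA
    have h1 := hbound x hx hxA
    have h2 : ∏ a ∈ A, (k x - k a) =
        (k x - k xm) * ((k x - k xM) * ∏ a ∈ (A.erase xm).erase xM, (k x - k a)) := by
      rw [Finset.mul_prod_erase (A.erase xm) (fun a => k x - k a)
        (Finset.mem_erase.2 ⟨hne, hxMA⟩), Finset.mul_prod_erase A (fun a => k x - k a) hxmA]
    rw [h2, abs_mul, abs_mul, ← hμ, ← hν] at h1
    have h3 : |k x - μ| = k x - μ := abs_of_nonneg (by have := hmin x hx; omega)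
    have h4 : |k x - ν| = ν - k x := by
      rw [abs_of_nonpos (by have := hmax x hx; omega)]
      ring
    rw [h3, h4] at h1
    linarith [h1]
  have hprodpos : ∀ x ∈ S, x ∉ A → 1 ≤ |∏ a ∈ (A.erase xm).erase xM, (k x - k a)| := by
    intro x hx hxA
    have : ∏ a ∈ (A.erase xm).erase xM, (k x - k a) ≠ 0 := by
      rw [Finset.prod_ne_zero_iff]
      intro a ha h0
      have haA : a ∈ A := Finset.mem_of_mem_erase (Finset.mem_of_mem_erase ha)
      have : x = a := hk x hx a (hAS haA) (by omega)
      rw [this] at hxA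
      exact hxA haA
    exact Int.one_le_abs this
  have hout : ∀ x ∈ S, x ∉ A → (μ < k x ∧ k x < ν) := by
    intro x hx hxA
    have h1 := hmin x hx
    have h2 := hmax x hx
    constructor
    · rcases lt_or_eq_of_le h1 with h | h
      · exact h
      · exfalso
        have : x = xm := hk x hx xm hxm (by rw [← h])
        rw [this] at hxA
        exact hxA hxmA
    · rcases lt_or_eq_of_le h2 with h | h
      · exact h
      · exfalso
        have : x = xM := hk x hx xM hxM h
        rw [this] at hxA
        exact hxA hxMA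
  have hends : ∀ x ∈ S, x ∉ A → k x = μ + 1 ∨ k x = ν - 1 := by
    intro x hx hxA
    obtain ⟨h1, h2⟩ := hout x hx hxA
    have h3 := hsplit x hx hxA
    have h4 := hprodpos x hx hxA
    by_contra hcon
    push Not at hcon
    have h5 : 2 ≤ k x - μ := by omega
    have h6 : 2 ≤ ν - k x := by omega
    have h7 : (k x - μ) * (ν - k x) ≤ ν - μ := by nlinarith
    nlinarith
  -- the other solutions are adjacent to `x`
  have hadj : ∀ x ∈ S, x ∉ A → ∀ a ∈ A, a ≠ xm → a ≠ xM → |k x - k a| = 1 := by
    intro x hx hxA a ha ham haM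
    obtain ⟨h1, h2⟩ := hout x hx hxA
    have h3 := hsplit x hx hxA
    have h4 := hprodpos x hx hxA
    have hmem : a ∈ (A.erase xm).erase xM :=
      Finset.mem_erase.2 ⟨haM, Finset.mem_erase.2 ⟨ham, ha⟩⟩
    have h5 : |k x - k a| ∣ |∏ a ∈ (A.erase xm).erase xM, (k x - k a)| :=
      (abs_dvd_abs _ _).2 (Finset.dvd_prod_of_mem (fun a => k x - k a) hmem)
    have h6 : |k x - k a| ≤ |∏ a ∈ (A.erase xm).erase xM, (k x - k a)| :=
      Int.le_of_dvd (by omega) h5
    have h7 : (k x - μ) * (ν - k x) ≥ ν - μ - 1 := by nlinarith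
    have h8 : 0 < |k x - k a| := by
      rw [abs_pos]
      intro h0
      have : x = a := hk x hx a (hAS ha) (by omega)
      rw [this] at hxA
      exact hxA ha
    by_contra hcon
    have h9 : 2 ≤ |k x - k a| := by omega
    nlinarith
  rw [Finset.not_subset] at hSA
  obtain ⟨x0, hx0, hx0A⟩ := hSA
  -- `k` maps `S` into five points
  have hfive : S.card ≤ 5 := by
    rcases hends x0 hx0 hx0A with h0 | h0
    · -- `A ⊆ {xm, xM, μ + 2}`
      have hsub : ∀ x ∈ S, k x ∈ ({μ, ν, μ + 2, μ + 1, ν - 1} : Finset ℤ) := by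
        intro x hx
        by_cases hxA : x ∈ A
        · by_cases h1 : x = xm
          · rw [h1]; simp [hμ]
          by_cases h2 : x = xM
          · rw [h2]; simp [hν]
          have h3 := hadj x0 hx0 hx0A x hxA h1 h2
          have h4 : k x ≠ μ := fun h => h1 (hk x hx xm hxm h)
          rw [h0] at h3
          have h5 : k x = μ + 2 := by
            rcases abs_eq (by norm_num : (0 : ℤ) ≤ 1) |>.1 h3 with h | h <;> omega
          rw [h5]; simp
        · rcases hends x hx hxA with h | h
          · rw [h]; simp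
          · rw [h]; simp
      calc S.card ≤ ({μ, ν, μ + 2, μ + 1, ν - 1} : Finset ℤ).card :=
            Finset.card_le_card_of_injOn k hsub (fun x hx y hy hxy => hk x hx y hy hxy)
        _ ≤ 5 := Finset.card_le_five
    · have hsub : ∀ x ∈ S, k x ∈ ({μ, ν, ν - 2, μ + 1, ν - 1} : Finset ℤ) := by
        intro x hx
        by_cases hxA : x ∈ A
        · by_cases h1 : x = xm
          · rw [h1]; simp [hμ]
          by_cases h2 : x = xM
          · rw [h2]; simp [hν]
          have h3 := hadj x0 hx0 hx0A x hxA h1 h2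
          have h4 : k x ≠ ν := fun h => h2 (hk x hx xM hxM h)
          rw [h0] at h3
          have h5 : k x = ν - 2 := by
            rcases abs_eq (by norm_num : (0 : ℤ) ≤ 1) |>.1 h3 with h | h <;> omega
          rw [h5]; simp
        · rcases hends x hx hxA with h | h
          · rw [h]; simp
          · rw [h]; simp
      calc S.card ≤ ({μ, ν, ν - 2, μ + 1, ν - 1} : Finset ℤ).card :=
            Finset.card_le_card_of_injOn k hsub (fun x hx y hy hxy => hk x hx y hy hxy)
        _ ≤ 5 := Finset.card_le_five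
  exact hfive.trans (le_max_left _ _)


/-- the product divides the value -/
lemma value_dvd {ι R : Type} [CommRing R] [IsDomain R] (g : Polynomial R) (A : Finset ι)
    (zR : ι → R) (hinj : ∀ x ∈ A, ∀ y ∈ A, zR x = zR y → x = y)
    (hg : g ≠ 0) (hroot : ∀ a ∈ A, g.eval (zR a) = 0) :
    A.card ≤ g.natDegree ∧ ∃ r : Polynomial R,
      g = (∏ a ∈ A, (Polynomial.X - Polynomial.C (zR a))) * r := by
  classical
  have hsub : (A.image zR).val ≤ g.roots := by
    rw [Finset.val_le_iff_val_subset]
    intro y hy
    obtain ⟨a, ha, rfl⟩ := Finset.mem_image.1 hy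
    rw [Polynomial.mem_roots hg]
    exact hroot a ha
  constructor
  · calc A.card = (A.image zR).card := (Finset.card_image_of_injOn
          (fun x hx y hy h => hinj x hx y hy h)).symm
      _ ≤ Multiset.card g.roots := Multiset.card_le_card hsub
      _ ≤ g.natDegree := Polynomial.card_roots' g
  · have h1 : ((A.image zR).val.map fun a => Polynomial.X - Polynomial.C a).prod ∣ g :=
      (Multiset.prod_dvd_prod_of_le (Multiset.map_le_map hsub)).trans
        (Polynomial.prod_multiset_X_sub_C_dvd g)
    have h2 : ((A.image zR).val.map fun a => Polynomial.X - Polynomial.C a).prod =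
        ∏ a ∈ A, (Polynomial.X - Polynomial.C (zR a)) := by
      change ∏ a ∈ A.image zR, (Polynomial.X - Polynomial.C a) = _
      rw [Finset.prod_image (fun x hx y hy h => hinj x hx y hy h)]
    rw [h2] at h1
    exact h1

/-- from finite invariant sets of preperiodic points to all preperiodic points -/
lemma count {R : Type} [CommRing R] (f : Polynomial R) (B : ℕ)
    (hB : ∀ S : Finset R, (∀ x ∈ S, f.eval x ∈ S) → (∀ x ∈ S, IsPreper f x) → S.card ≤ B) :
    {x : R | IsPreper f x}.Finite ∧ {x : R | IsPreper f x}.ncard ≤ B := by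
  classical
  have hT : ∀ T : Finset R, (∀ x ∈ T, IsPreper f x) → T.card ≤ B := by
    intro T hT
    choose! m n hmn heq using hT
    let S : Finset R := T.biUnion (fun x => (Finset.range (n x)).image
      (fun i => (fun y => f.eval y)^[i] x))
    have hTS : T ⊆ S := by
      intro x hx
      refine Finset.mem_biUnion.2 ⟨x, hx, Finset.mem_image.2 ⟨0, ?_, by simp⟩⟩
      rw [Finset.mem_range]
      have := hmn x hx
      omega
    refine (Finset.card_le_card hTS).trans (hB S ?_ ?_)
    · intro y hy
      obtain ⟨x, hx, hy⟩ := Finset.mem_biUnion.1 hy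
      obtain ⟨i, hi, rfl⟩ := Finset.mem_image.1 hy
      rw [Finset.mem_range] at hi
      refine Finset.mem_biUnion.2 ⟨x, hx, ?_⟩
      have hstep : f.eval ((fun y => f.eval y)^[i] x) = (fun y => f.eval y)^[i + 1] x := by
        rw [Function.iterate_succ_apply']
      rw [hstep]
      rcases Nat.lt_or_ge (i + 1) (n x) with h | h
      · exact Finset.mem_image.2 ⟨i + 1, Finset.mem_range.2 h, rfl⟩
      · have h1 : i + 1 = n x := by omega
        rw [h1, ← heq x hx]
        exact Finset.mem_image.2 ⟨m x, Finset.mem_range.2 (hmn x hx), rfl⟩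
    · intro y hy
      obtain ⟨x, hx, hy⟩ := Finset.mem_biUnion.1 hy
      obtain ⟨i, hi, rfl⟩ := Finset.mem_image.1 hy
      refine ⟨m x, n x, hmn x hx, ?_⟩
      rw [← Function.iterate_add_apply, ← Function.iterate_add_apply, add_comm (m x),
        add_comm (n x), Function.iterate_add_apply, Function.iterate_add_apply, heq x hx]
  have hfin : {x : R | IsPreper f x}.Finite := by
    by_contra hinf
    obtain ⟨t, ht, hc⟩ := Set.Infinite.exists_subset_card_eq hinf (B + 1)
    have := hT t (fun x hx => ht hx)
    omega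
  refine ⟨hfin, ?_⟩
  rw [Set.ncard_eq_toFinset_card _ hfin]
  exact hT _ (fun x hx => by simpa using hx)

/-- integral points of arbitrary integral polynomials -/
lemma upper_int (f : Polynomial ℤ) (d : ℕ) (hd : 2 ≤ d) (hf : f.natDegree = d) :
    {x : ℤ | IsPreper f x}.Finite ∧ {x : ℤ | IsPreper f x}.ncard ≤ max 5 d := by
  classical
  apply count f (max 5 d)
  intro S hS _
  apply comb S id (fun x _ y _ h => h) (fun x => f.eval x) hS d
  intro e w
  simp only [id]
  set A := S.filter (fun x => f.eval x = e * x + w) with hA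
  let q : Polynomial ℤ := Polynomial.C e * Polynomial.X + Polynomial.C w
  let h : Polynomial ℤ := f - q
  have hq : q.natDegree < f.natDegree := by
    have : q.natDegree ≤ 1 := Polynomial.natDegree_linear_le
    omega
  have hhd : h.natDegree = d := by
    rw [← hf]
    exact Polynomial.natDegree_sub_eq_left_of_natDegree_lt hq
  have hh0 : h ≠ 0 := by
    intro h0
    rw [h0, Polynomial.natDegree_zero] at hhd
    omega
  have hval : ∀ x, h.eval x = f.eval x - (e * x + w) := by
    intro x
    simp [h, q]
  obtain ⟨hcard, r, hr⟩ := value_dvd h A id (fun x _ y _ h => h) hh0 (by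
    intro a ha
    rw [id, hval, (Finset.mem_filter.1 ha).2, sub_self])
  refine ⟨by rw [← hhd]; exact hcard, ?_⟩
  intro x _
  rw [← hval x, hr, Polynomial.eval_mul, Polynomial.eval_prod]
  simp only [id, Polynomial.eval_sub, Polynomial.eval_X, Polynomial.eval_C]
  exact dvd_mul_right _ _

/-- extremal examples -/
lemma exists_sharp (d : ℕ) (hd : 2 ≤ d) : ∃ f : Polynomial ℤ, f.Monic ∧ f.natDegree = d ∧
    ∃ T : Finset ℤ, T.card = max 5 d ∧ ∀ x ∈ T, IsPreper f x := by
  classical
  rcases Nat.lt_or_ge 4 d with h | h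
  · have hm : (∏ i ∈ Finset.range d,
        (Polynomial.X - Polynomial.C (i : ℤ))).Monic :=
      Polynomial.monic_prod_of_monic _ _ (fun i _ => Polynomial.monic_X_sub_C _)
    refine ⟨∏ i ∈ Finset.range d, (Polynomial.X - Polynomial.C (i : ℤ)), hm, ?_,
      (Finset.range d).image (fun i : ℕ => (i : ℤ)), ?_, ?_⟩
    · rw [Polynomial.natDegree_prod_of_monic _ _ (fun i _ => Polynomial.monic_X_sub_C _)]
      have h1 : ∀ i ∈ Finset.range d,
          ((Polynomial.X : Polynomial ℤ) - Polynomial.C (i : ℤ)).natDegree = 1 :=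
        fun i _ => Polynomial.natDegree_X_sub_C (i : ℤ)
      rw [Finset.sum_congr rfl h1]
      simp
    · rw [Finset.card_image_of_injective _ Nat.cast_injective, Finset.card_range]
      omega
    · intro x hx
      obtain ⟨i, hi, rfl⟩ := Finset.mem_image.1 hx
      have hz : ∀ j ∈ Finset.range d, (∏ i ∈ Finset.range d,
          (Polynomial.X - Polynomial.C (i : ℤ))).eval (j : ℤ) = 0 := by
        intro j hj
        rw [Polynomial.eval_prod]
        exact Finset.prod_eq_zero hj (by simp)
      have h0 : (0 : ℕ) ∈ Finset.range d := Finset.mem_range.2 (by omega)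
      refine ⟨1, 2, by norm_num, ?_⟩
      have h1 := hz i hi
      have h2 := hz 0 h0
      rw [Nat.cast_zero] at h2
      simp only [Function.iterate_succ, Function.iterate_zero, Function.comp_apply, id]
      rw [h1, h2]
  · have hd' : d = 2 ∨ d = 3 ∨ d = 4 := by omega
    rcases hd' with rfl | rfl | rfl
    · refine ⟨Polynomial.X ^ 2 - Polynomial.C 2, ?_, ?_, {-2, -1, 0, 1, 2}, by decide, ?_⟩
      · exact Polynomial.monic_X_pow_sub_C _ (by norm_num)
      · exact Polynomial.natDegree_X_pow_sub_C
      · intro x hx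
        refine ⟨2, 3, by norm_num, ?_⟩
        simp only [Finset.mem_insert, Finset.mem_singleton] at hx
        rcases hx with rfl | rfl | rfl | rfl | rfl <;> norm_num [Function.iterate_succ]
    · refine ⟨Polynomial.X ^ 3 - Polynomial.C 3 * Polynomial.X, ?_, ?_,
        {-2, -1, 0, 1, 2}, by decide, ?_⟩
      · monicity!
      · compute_degree!
      · intro x hx
        refine ⟨2, 3, by norm_num, ?_⟩
        simp only [Finset.mem_insert, Finset.mem_singleton] at hx
        rcases hx with rfl | rfl | rfl | rfl | rfl <;> norm_num [Function.iterate_succ]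
    · refine ⟨Polynomial.X ^ 4 - Polynomial.C 4 * Polynomial.X ^ 2 + Polynomial.C 2, ?_, ?_,
        {-2, -1, 0, 1, 2}, by decide, ?_⟩
      · monicity!
      · compute_degree!
      · intro x hx
        refine ⟨2, 3, by norm_num, ?_⟩
        simp only [Finset.mem_insert, Finset.mem_singleton] at hx
        rcases hx with rfl | rfl | rfl | rfl | rfl <;> norm_num [Function.iterate_succ]

/-- A polynomial over `ℤ` of degree `d ≥ 2`, with any leading coefficient, has at most `max 5 d`
integral preperiodic points, and this is attained for every `d`. -/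
theorem result :
    (∀ (d : ℕ) (f : Polynomial ℤ), 2 ≤ d → f.natDegree = d →
      {x : ℤ | IsPreper f x}.Finite ∧ {x : ℤ | IsPreper f x}.ncard ≤ max 5 d) ∧
    (∀ d : ℕ, 2 ≤ d → ∃ f : Polynomial ℤ, f.natDegree = d ∧
      {x : ℤ | IsPreper f x}.ncard = max 5 d) := by
  classical
  refine ⟨fun d f hd hf => upper_int f d hd hf, ?_⟩
  intro d hd
  obtain ⟨f, hm, hf, T, hT, hTp⟩ := exists_sharp d hd
  obtain ⟨hfin, hle⟩ := upper_int f d hd hf
  refine ⟨f, hf, le_antisymm hle ?_⟩
  rw [← hT, ← Set.ncard_coe_finset]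
  exact Set.ncard_le_ncard (fun x hx => hTp x hx) hfin

end Pool.Agent.Results.MP_c076ed_nt.IntegralPoints
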