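import Mathlib

set_option autoImplicit false

namespace Pool.Agent.Results.MP_c076ed_nt.PotGoodSharp

/-- `x` is preperiodic for the polynomial `f`: its forward orbit repeats. -/
def IsPreper {R : Type} [CommRing R] (f : Polynomial R) (x : R) : Prop :=
  ∃ m n : ℕ, m < n ∧ (fun y => f.eval y)^[m] x = (fun y => f.eval y)^[n] x

/-- everywhere potentially good reduction: after an affine change of coordinate over `ℂ`,
`f` becomes a polynomial whose coefficients are algebraic integers and whose leading
coefficient is a unit of the ring of algebraic integers. -/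
def PotGood (f : Polynomial ℚ) : Prop :=
  ∃ (α β : ℂ) (g : Polynomial (integralClosure ℤ ℂ)), α ≠ 0 ∧ IsUnit g.leadingCoeff ∧
    (f.map (algebraMap ℚ ℂ)).comp (Polynomial.C α * Polynomial.X + Polynomial.C β) =
      Polynomial.C α * g.map (algebraMap (integralClosure ℤ ℂ) ℂ) + Polynomial.C β

/-- the counting argument over the integers -/
lemma comb {ι : Type} [DecidableEq ι] (S : Finset ι) (k : ι → ℤ)
    (hk : ∀ x ∈ S, ∀ y ∈ S, k x = k y → x = y) (φ : ι → ι) (hφ : ∀ x ∈ S, φ x ∈ S) (d : ℕ)
    (H : ∀ e w : ℤ, (S.filter (fun x => k (φ x) = e * k x + w)).card ≤ d ∧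
      ∀ x ∈ S, (∏ a ∈ S.filter (fun x => k (φ x) = e * k x + w), (k x - k a)) ∣
        k (φ x) - (e * k x + w)) :
    S.card ≤ max 5 d := by
  classical
  rcases S.eq_empty_or_nonempty with hS | hS
  · rw [hS]; simp
  obtain ⟨xm, hxm, hmin⟩ := Finset.exists_min_image S k hS
  obtain ⟨xM, hxM, hmax⟩ := Finset.exists_max_image S k hS
  set μ := k xm with hμ
  set ν := k xM with hν
  -- few points if the range is short
  by_cases hL : ν - μ ≤ 4
  · have h1 : S.card ≤ (Finset.Icc μ (μ + 4)).card := by
      apply Finset.card_le_card_of_injOn k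
      · intro x hx
        have := hmin x hx
        have := hmax x hx
        simp only [Finset.coe_Icc, Set.mem_Icc]
        constructor <;> omega
      · intro x hx y hy hxy
        exact hk x hx y hy hxy
    have h2 : (Finset.Icc μ (μ + 4)).card = 5 := by
      rw [Int.card_Icc]
      omega
    omega
  push Not at hL
  -- the reference function
  have key : ∃ e w : ℤ, k (φ xm) = e * k xm + w ∧ k (φ xM) = e * k xM + w ∧
      ∀ x ∈ S, |k (φ x) - (e * k x + w)| ≤ ν - μ := by
    have hbd : ∀ x ∈ S, μ ≤ k (φ x) ∧ k (φ x) ≤ ν := fun x hx =>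
      ⟨hmin _ (hφ x hx), hmax _ (hφ x hx)⟩
    have hbd' : ∀ x ∈ S, μ ≤ k x ∧ k x ≤ ν := fun x hx => ⟨hmin _ hx, hmax _ hx⟩
    have hdiv : (ν - μ) ∣ k (φ xM) - k (φ xm) := by
      have h := (H 0 (k (φ xm))).2 xM hxM
      have hmem : xm ∈ S.filter (fun x => k (φ x) = 0 * k x + k (φ xm)) := by
        rw [Finset.mem_filter]
        exact ⟨hxm, by ring⟩
      have h2 := (Finset.dvd_prod_of_mem (fun a => k xM - k a) hmem).trans h
      have h3 : k (φ xM) - (0 * k xM + k (φ xm)) = k (φ xM) - k (φ xm) := by ring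
      rw [h3] at h2
      exact h2
    obtain ⟨c, hc⟩ := hdiv
    have b1 := hbd xm hxm
    have b2 := hbd xM hxM
    have hpos : 0 < ν - μ := by omega
    have hc1 : c ≤ 1 := by
      by_contra hcon
      push Not at hcon
      nlinarith
    have hc2 : -1 ≤ c := by
      by_contra hcon
      push Not at hcon
      nlinarith
    have hc3 : c = -1 ∨ c = 0 ∨ c = 1 := by omega
    rcases hc3 with h | h | h
    · refine ⟨-1, μ + ν, ?_, ?_, ?_⟩
      · rw [h] at hc
        rw [← hμ]
        omega
      · rw [h] at hc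
        rw [← hν]
        omega
      · intro x hx
        have h1 := hbd x hx
        have h2 := hbd' x hx
        rw [abs_le]
        constructor <;> omega
    · refine ⟨0, k (φ xm), by ring, ?_, ?_⟩
      · rw [h] at hc
        omega
      · intro x hx
        have h1 := hbd x hx
        rw [abs_le]
        constructor <;> omega
    · refine ⟨1, 0, ?_, ?_, ?_⟩
      · rw [h] at hc
        rw [← hμ]
        omega
      · rw [h] at hc
        rw [← hν]
        omega
      · intro x hx
        have h1 := hbd x hx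
        have h2 := hbd' x hx
        rw [abs_le]
        constructor <;> omega
  obtain ⟨e, w, hem, heM, habs⟩ := key
  obtain ⟨hA, hdvd⟩ := H e w
  set A := S.filter (fun x => k (φ x) = e * k x + w) with hAdef
  have hxmA : xm ∈ A := Finset.mem_filter.2 ⟨hxm, hem⟩
  have hxMA : xM ∈ A := Finset.mem_filter.2 ⟨hxM, heM⟩
  have hAS : A ⊆ S := Finset.filter_subset _ _
  by_cases hSA : S ⊆ A
  · exact (Finset.card_le_card hSA).trans (hA.trans (le_max_right _ _))
  -- some point outside
  have hbound : ∀ x ∈ S, x ∉ A → |∏ a ∈ A, (k x - k a)| ≤ ν - μ := by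
    intro x hx hxA
    have hne : k (φ x) - (e * k x + w) ≠ 0 := by
      intro h
      exact hxA (Finset.mem_filter.2 ⟨hx, by omega⟩)
    have h1 := hdvd x hx
    have h2 : |∏ a ∈ A, (k x - k a)| ≤ |k (φ x) - (e * k x + w)| := by
      have := Int.le_of_dvd (abs_pos.2 hne) ((abs_dvd_abs _ _).2 h1)
      exact this
    exact h2.trans (habs x hx)
  have hne : xM ≠ xm := by
    intro h
    rw [h] at hν
    omega
  have hsplit : ∀ x ∈ S, x ∉ A → (k x - μ) * (ν - k x) *
      |∏ a ∈ (A.erase xm).erase xM, (k x - k a)| ≤ ν - μ := by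
    intro x hx hxA
    have h1 := hbound x hx hxA
    have h2 : ∏ a ∈ A, (k x - k a) =
        (k x - k xm) * ((k x - k xM) * ∏ a ∈ (A.erase xm).erase xM, (k x - k a)) := by
      rw [Finset.mul_prod_erase (A.erase xm) (fun a => k x - k a)
        (Finset.mem_erase.2 ⟨hne, hxMA⟩), Finset.mul_prod_erase A (fun a => k x - k a) hxmA]
    rw [h2, abs_mul, abs_mul, ← hμ, ← hν] at h1
    have h3 : |k x - μ| = k x - μ := abs_of_nonneg (by have := hmin x hx; omega)
    have h4 : |k x - ν| = ν - k x := by
      rw [abs_of_nonpos (by have := hmax x hx; omega)]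
      ring
    rw [h3, h4] at h1
    linarith [h1]
  have hprodpos : ∀ x ∈ S, x ∉ A → 1 ≤ |∏ a ∈ (A.erase xm).erase xM, (k x - k a)| := by
    intro x hx hxA
    have : ∏ a ∈ (A.erase xm).erase xM, (k x - k a) ≠ 0 := by
      rw [Finset.prod_ne_zero_iff]
      intro a ha h0
      have haA : a ∈ A := Finset.mem_of_mem_erase (Finset.mem_of_mem_erase ha)
      have : x = a := hk x hx a (hAS haA) (by omega)
      rw [this] at hxA
      exact hxA haA
    exact Int.one_le_abs this
  have hout : ∀ x ∈ S, x ∉ A → (μ < k x ∧ k x < ν) := by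
    intro x hx hxA
    have h1 := hmin x hx
    have h2 := hmax x hx
    constructor
    · rcases lt_or_eq_of_le h1 with h | h
      · exact h
      · exfalso
        have : x = xm := hk x hx xm hxm (by rw [← h])
        rw [this] at hxA
        exact hxA hxmA
    · rcases lt_or_eq_of_le h2 with h | h
      · exact h
      · exfalso
        have : x = xM := hk x hx xM hxM h
        rw [this] at hxA
        exact hxA hxMA
  have hends : ∀ x ∈ S, x ∉ A → k x = μ + 1 ∨ k x = ν - 1 := by
    intro x hx hxA
    obtain ⟨h1, h2⟩ := hout x hx hxA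
    have h3 := hsplit x hx hxA
    have h4 := hprodpos x hx hxA
    by_contra hcon
    push Not at hcon
    have h5 : 2 ≤ k x - μ := by omega
    have h6 : 2 ≤ ν - k x := by omega
    have h7 : (k x - μ) * (ν - k x) ≤ ν - μ := by nlinarith
    nlinarith
  -- the other solutions are adjacent to `x`
  have hadj : ∀ x ∈ S, x ∉ A → ∀ a ∈ A, a ≠ xm → a ≠ xM → |k x - k a| = 1 := by
    intro x hx hxA a ha ham haM
    obtain ⟨h1, h2⟩ := hout x hx hxA
    have h3 := hsplit x hx hxA
    have h4 := hprodpos x hx hxA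
    have hmem : a ∈ (A.erase xm).erase xM :=
      Finset.mem_erase.2 ⟨haM, Finset.mem_erase.2 ⟨ham, ha⟩⟩
    have h5 : |k x - k a| ∣ |∏ a ∈ (A.erase xm).erase xM, (k x - k a)| :=
      (abs_dvd_abs _ _).2 (Finset.dvd_prod_of_mem (fun a => k x - k a) hmem)
    have h6 : |k x - k a| ≤ |∏ a ∈ (A.erase xm).erase xM, (k x - k a)| :=
      Int.le_of_dvd (by omega) h5
    have h7 : (k x - μ) * (ν - k x) ≥ ν - μ - 1 := by nlinarith
    have h8 : 0 < |k x - k a| := by
      rw [abs_pos]
      intro h0
      have : x = a := hk x hx a (hAS ha) (by omega)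
      rw [this] at hxA
      exact hxA ha
    by_contra hcon
    have h9 : 2 ≤ |k x - k a| := by omega
    nlinarith
  rw [Finset.not_subset] at hSA
  obtain ⟨x0, hx0, hx0A⟩ := hSA
  -- `k` maps `S` into five points
  have hfive : S.card ≤ 5 := by
    rcases hends x0 hx0 hx0A with h0 | h0
    · -- `A ⊆ {xm, xM, μ + 2}`
      have hsub : ∀ x ∈ S, k x ∈ ({μ, ν, μ + 2, μ + 1, ν - 1} : Finset ℤ) := by
        intro x hx
        by_cases hxA : x ∈ A
        · by_cases h1 : x = xm
          · rw [h1]; simp [hμ]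
          by_cases h2 : x = xM
          · rw [h2]; simp [hν]
          have h3 := hadj x0 hx0 hx0A x hxA h1 h2
          have h4 : k x ≠ μ := fun h => h1 (hk x hx xm hxm h)
          rw [h0] at h3
          have h5 : k x = μ + 2 := by
            rcases abs_eq (by norm_num : (0 : ℤ) ≤ 1) |>.1 h3 with h | h <;> omega
          rw [h5]; simp
        · rcases hends x hx hxA with h | h
          · rw [h]; simp
          · rw [h]; simp
      calc S.card ≤ ({μ, ν, μ + 2, μ + 1, ν - 1} : Finset ℤ).card :=
            Finset.card_le_card_of_injOn k hsub (fun x hx y hy hxy => hk x hx y hy hxy)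
        _ ≤ 5 := Finset.card_le_five
    · have hsub : ∀ x ∈ S, k x ∈ ({μ, ν, ν - 2, μ + 1, ν - 1} : Finset ℤ) := by
        intro x hx
        by_cases hxA : x ∈ A
        · by_cases h1 : x = xm
          · rw [h1]; simp [hμ]
          by_cases h2 : x = xM
          · rw [h2]; simp [hν]
          have h3 := hadj x0 hx0 hx0A x hxA h1 h2
          have h4 : k x ≠ ν := fun h => h2 (hk x hx xM hxM h)
          rw [h0] at h3
          have h5 : k x = ν - 2 := by
            rcases abs_eq (by norm_num : (0 : ℤ) ≤ 1) |>.1 h3 with h | h <;> omega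
          rw [h5]; simp
        · rcases hends x hx hxA with h | h
          · rw [h]; simp
          · rw [h]; simp
      calc S.card ≤ ({μ, ν, ν - 2, μ + 1, ν - 1} : Finset ℤ).card :=
            Finset.card_le_card_of_injOn k hsub (fun x hx y hy hxy => hk x hx y hy hxy)
        _ ≤ 5 := Finset.card_le_five
  exact hfive.trans (le_max_left _ _)


/-- preperiodic points of a polynomial with unit leading coefficient are integral -/
lemma preper_integral (g : Polynomial (integralClosure ℤ ℂ)) (hu : IsUnit g.leadingCoeff)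
    (hd : 2 ≤ g.natDegree) (z : ℂ) (m n : ℕ) (hmn : m < n)
    (h : (fun y => (g.map (algebraMap (integralClosure ℤ ℂ) ℂ)).eval y)^[m] z =
      (fun y => (g.map (algebraMap (integralClosure ℤ ℂ) ℂ)).eval y)^[n] z) :
    IsIntegral ℤ z := by
  let P : ℕ → Polynomial (integralClosure ℤ ℂ) := fun k => (g.comp)^[k] Polynomial.X
  have hdeg : ∀ k, (P k).natDegree = g.natDegree ^ k := by
    intro k
    simp only [P]
    rw [Polynomial.natDegree_iterate_comp]
    simp
  have hlead : ∀ k, IsUnit (P k).leadingCoeff := by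
    intro k
    induction k with
    | zero => simp [P]
    | succ k ih =>
      have h1 : P (k + 1) = g.comp (P k) := by
        simp only [P]
        rw [Function.iterate_succ_apply']
      rw [h1, Polynomial.leadingCoeff_comp]
      · exact hu.mul (ih.pow _)
      · rw [hdeg]
        have : 0 < g.natDegree ^ k := pow_pos (by omega) _
        omega
  have heval : ∀ k, ((P k).map (algebraMap (integralClosure ℤ ℂ) ℂ)).eval z =
      (fun y => (g.map (algebraMap (integralClosure ℤ ℂ) ℂ)).eval y)^[k] z := by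
    intro k
    induction k with
    | zero => simp [P]
    | succ k ih =>
      have h1 : P (k + 1) = g.comp (P k) := by
        simp only [P]
        rw [Function.iterate_succ_apply']
      rw [h1, Polynomial.map_comp, Polynomial.eval_comp, ih, Function.iterate_succ_apply']
  have hlt : (P m).degree < (P n).degree := by
    apply Polynomial.degree_lt_degree
    rw [hdeg, hdeg]
    exact Nat.pow_lt_pow_right (by omega) hmn
  have hl : (P n - P m).leadingCoeff = (P n).leadingCoeff :=
    Polynomial.leadingCoeff_sub_of_degree_lt hlt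
  have hun : IsUnit (P n - P m).leadingCoeff := by
    rw [hl]
    exact hlead n
  obtain ⟨u, hu'⟩ := hun
  have hmonic : (Polynomial.C (((u⁻¹ : (integralClosure ℤ ℂ)ˣ)) : integralClosure ℤ ℂ) *
      (P n - P m)).Monic := by
    apply Polynomial.monic_C_mul_of_mul_leadingCoeff_eq_one
    rw [← hu']
    simp
  have hroot : IsIntegral (integralClosure ℤ ℂ) z := by
    refine ⟨_, hmonic, ?_⟩
    rw [Polynomial.eval₂_eq_eval_map, Polynomial.map_mul, Polynomial.map_sub,
      Polynomial.eval_mul, Polynomial.eval_sub, heval, heval, h]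
    simp
  exact isIntegral_trans z hroot

/-- the lattice spanned by the differences -/
lemma lattice (S : Finset ℚ) (m : ℚ) (α : ℂ) (hint : ∀ x ∈ S, IsIntegral ℤ (((x : ℂ) - m) / α))
    (hne : ∃ x ∈ S, x ≠ m) :
    ∃ l : ℚ, l ≠ 0 ∧ IsIntegral ℤ ((l : ℂ) / α) ∧ ∀ x ∈ S, ∃ j : ℤ, x - m = l * j := by
  classical
  obtain ⟨b, hb⟩ : ∃ b : ℕ, b = ∏ x ∈ S, (x - m).den := ⟨_, rfl⟩
  have hb0 : b ≠ 0 := by
    rw [hb, Finset.prod_ne_zero_iff]
    intro x _
    exact (x - m).den_ne_zero
  have hbq : (b : ℚ) ≠ 0 := by exact_mod_cast hb0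
  have hint2 : ∀ x ∈ S, ∃ j : ℤ, (j : ℚ) = b * (x - m) := by
    intro x hx
    have h1 : (x - m).den ∣ b := by
      rw [hb]
      exact Finset.dvd_prod_of_mem (fun x => (x - m).den) hx
    obtain ⟨c, hc⟩ := h1
    refine ⟨c * (x - m).num, ?_⟩
    rw [hc]
    push_cast
    have := Rat.mul_den_eq_num (x - m)
    rw [← this]
    ring
  let I : Ideal ℤ := Ideal.span {j : ℤ | ∃ x ∈ S, (j : ℚ) = b * (x - m)}
  have hG := Submodule.IsPrincipal.generator_mem I
  set G := Submodule.IsPrincipal.generator I with hGdef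
  have hdiv : ∀ x ∈ S, ∃ j : ℤ, (b : ℚ) * (x - m) = G * j := by
    intro x hx
    obtain ⟨j, hj⟩ := hint2 x hx
    have hmem : j ∈ I := Ideal.subset_span ⟨x, hx, hj⟩
    rw [Submodule.IsPrincipal.mem_iff_generator_dvd I] at hmem
    obtain ⟨c, hc⟩ := hmem
    refine ⟨c, ?_⟩
    rw [← hj, hc]
    push_cast
    rfl
  have hI : ∀ j ∈ I, IsIntegral ℤ (((j : ℂ) / b) / α) := by
    intro j hj
    induction hj using Submodule.span_induction with
    | mem j hj =>
      obtain ⟨x, hx, h⟩ := hj
      have h1 : (j : ℂ) / b = (x : ℂ) - m := by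
        have hbc : (b : ℂ) ≠ 0 := by exact_mod_cast hb0
        have h2 : (j : ℂ) = b * ((x : ℂ) - m) := by exact_mod_cast congrArg (fun q : ℚ => (q : ℂ)) h
        rw [h2]
        field_simp
      rw [h1]
      exact hint x hx
    | zero => simpa using isIntegral_zero
    | add x y _ _ hx hy =>
      have : (((x + y : ℤ) : ℂ) / b) / α = ((x : ℂ) / b) / α + ((y : ℂ) / b) / α := by
        push_cast
        ring
      rw [this]
      exact hx.add hy
    | smul a x _ hx =>
      have : (((a • x : ℤ) : ℂ) / b) / α = (a : ℂ) * (((x : ℂ) / b) / α) := by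
        rw [smul_eq_mul]
        push_cast
        ring
      rw [this]
      exact (isIntegral_algebraMap (R := ℤ) (x := a)).mul hx
  refine ⟨(G : ℚ) / b, ?_, ?_, ?_⟩
  · obtain ⟨x, hx, hxm⟩ := hne
    obtain ⟨j, hj⟩ := hdiv x hx
    intro h0
    rw [div_eq_zero_iff] at h0
    rcases h0 with h0 | h0
    · rw [h0, zero_mul] at hj
      have := mul_eq_zero.1 hj
      rcases this with h | h
      · exact hbq h
      · exact hxm (sub_eq_zero.1 h)
    · exact hbq h0
  · have := hI G hG
    push_cast
    exact this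
  · intro x hx
    obtain ⟨j, hj⟩ := hdiv x hx
    refine ⟨j, ?_⟩
    field_simp
    linarith


/-- a rational number that is an algebraic integer is an integer -/
lemma rat_int (q : ℚ) (hq : IsIntegral ℤ (q : ℂ)) : ∃ y : ℤ, (y : ℚ) = q := by
  have h1 : IsIntegral ℤ (algebraMap ℚ ℂ q) := hq
  rw [isIntegral_algebraMap_iff (FaithfulSMul.algebraMap_injective ℚ ℂ)] at h1
  exact IsIntegrallyClosed.isIntegral_iff.1 h1

/-- the product divides the value -/
lemma value_dvd {ι R : Type} [CommRing R] [IsDomain R] (g : Polynomial R) (A : Finset ι)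
    (zR : ι → R) (hinj : ∀ x ∈ A, ∀ y ∈ A, zR x = zR y → x = y)
    (hg : g ≠ 0) (hroot : ∀ a ∈ A, g.eval (zR a) = 0) :
    A.card ≤ g.natDegree ∧ ∃ r : Polynomial R,
      g = (∏ a ∈ A, (Polynomial.X - Polynomial.C (zR a))) * r := by
  classical
  have hsub : (A.image zR).val ≤ g.roots := by
    rw [Finset.val_le_iff_val_subset]
    intro y hy
    obtain ⟨a, ha, rfl⟩ := Finset.mem_image.1 hy
    rw [Polynomial.mem_roots hg]
    exact hroot a ha
  constructor
  · calc A.card = (A.image zR).card := (Finset.card_image_of_injOn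
          (fun x hx y hy h => hinj x hx y hy h)).symm
      _ ≤ Multiset.card g.roots := Multiset.card_le_card hsub
      _ ≤ g.natDegree := Polynomial.card_roots' g
  · have h1 : ((A.image zR).val.map fun a => Polynomial.X - Polynomial.C a).prod ∣ g :=
      (Multiset.prod_dvd_prod_of_le (Multiset.map_le_map hsub)).trans
        (Polynomial.prod_multiset_X_sub_C_dvd g)
    have h2 : ((A.image zR).val.map fun a => Polynomial.X - Polynomial.C a).prod =
        ∏ a ∈ A, (Polynomial.X - Polynomial.C (zR a)) := by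
      change ∏ a ∈ A.image zR, (Polynomial.X - Polynomial.C a) = _
      rw [Finset.prod_image (fun x hx y hy h => hinj x hx y hy h)]
    rw [h2] at h1
    exact h1

/-- the bound for finite invariant sets -/
lemma bound (f : Polynomial ℚ) (d : ℕ) (hd : 2 ≤ d) (α β : ℂ) (hα : α ≠ 0)
    (g : Polynomial (integralClosure ℤ ℂ)) (hgd : g.natDegree = d)
    (hfg : ∀ x : ℚ, ((f.eval x : ℚ) : ℂ) =
      α * (g.map (algebraMap (integralClosure ℤ ℂ) ℂ)).eval (((x : ℂ) - β) / α) + β)
    (S : Finset ℚ) (hS : ∀ x ∈ S, f.eval x ∈ S)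
    (hint : ∀ x ∈ S, IsIntegral ℤ (((x : ℂ) - β) / α)) :
    S.card ≤ max 5 d := by
  classical
  rcases S.eq_empty_or_nonempty with hS0 | ⟨m, hm⟩
  · rw [hS0]; simp
  by_cases hne : ∃ x ∈ S, x ≠ m
  swap
  · push Not at hne
    have : S ⊆ {m} := fun x hx => Finset.mem_singleton.2 (hne x hx)
    have h1 := Finset.card_le_card this
    rw [Finset.card_singleton] at h1
    omega
  obtain ⟨l, hl0, hlint, hlk⟩ := lattice S m α (by
    intro x hx
    have : ((x : ℂ) - m) / α = ((x : ℂ) - β) / α - ((m : ℂ) - β) / α := by ring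
    rw [this]
    exact (hint x hx).sub (hint m hm)) hne
  choose! k hk using hlk
  let zR : ℚ → integralClosure ℤ ℂ := fun x =>
    if h : IsIntegral ℤ (((x : ℂ) - β) / α) then ⟨_, h⟩ else 0
  have hz : ∀ x ∈ S, ((zR x : integralClosure ℤ ℂ) : ℂ) = ((x : ℂ) - β) / α := by
    intro x hx
    simp only [zR]
    rw [dif_pos (hint x hx)]
  let κ : integralClosure ℤ ℂ := ⟨(l : ℂ) / α, hlint⟩
  have hκ : ((κ : integralClosure ℤ ℂ) : ℂ) = (l : ℂ) / α := rfl
  have hκ0 : (l : ℂ) / α ≠ 0 := div_ne_zero (by exact_mod_cast hl0) hα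
  have hkC : ∀ x ∈ S, (x : ℂ) - m = l * (k x : ℂ) := by
    intro x hx
    have := congrArg (fun q : ℚ => (q : ℂ)) (hk x hx)
    push_cast at this
    exact this
  have hzinj : ∀ x ∈ S, ∀ y ∈ S, zR x = zR y → x = y := by
    intro x hx y hy h
    have h1 := congrArg (fun t : integralClosure ℤ ℂ => (t : ℂ)) h
    simp only [hz x hx, hz y hy] at h1
    have h2 : (x : ℂ) = y := by
      field_simp at h1
      linear_combination h1
    exact_mod_cast h2
  have hev : ∀ x ∈ S, ((g.eval (zR x) : integralClosure ℤ ℂ) : ℂ) =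
      (((f.eval x : ℚ) : ℂ) - β) / α := by
    intro x hx
    have h1 : ((g.eval (zR x) : integralClosure ℤ ℂ) : ℂ) =
        (g.map (algebraMap (integralClosure ℤ ℂ) ℂ)).eval (((x : ℂ) - β) / α) := by
      rw [← hz x hx]
      exact (Polynomial.eval_map_apply (f := algebraMap (integralClosure ℤ ℂ) ℂ) (p := g) (zR x)).symm
    rw [h1, hfg x]
    field_simp
    ring
  apply comb S k (fun x hx y hy h => by
    have h1 := hk x hx
    have h2 := hk y hy
    rw [h] at h1
    linarith) (fun x => f.eval x) hS d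
  intro e w
  set A := S.filter (fun x => k (f.eval x) = e * k x + w) with hA
  have hAS : A ⊆ S := Finset.filter_subset _ _
  let c0 : integralClosure ℤ ℂ := zR m + κ * (w : integralClosure ℤ ℂ) -
    (e : integralClosure ℤ ℂ) * zR m
  let q : Polynomial (integralClosure ℤ ℂ) := Polynomial.C (e : integralClosure ℤ ℂ) *
    Polynomial.X + Polynomial.C c0
  let h : Polynomial (integralClosure ℤ ℂ) := g - q
  have hq : q.natDegree < g.natDegree := by
    have : q.natDegree ≤ 1 := Polynomial.natDegree_linear_le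
    omega
  have hhd : h.natDegree = d := by
    rw [← hgd]
    exact Polynomial.natDegree_sub_eq_left_of_natDegree_lt hq
  have hh0 : h ≠ 0 := by
    intro h0
    rw [h0, Polynomial.natDegree_zero] at hhd
    omega
  have hval : ∀ x ∈ S, ((h.eval (zR x) : integralClosure ℤ ℂ) : ℂ) =
      (l : ℂ) / α * ((k (f.eval x) - (e * k x + w) : ℤ) : ℂ) := by
    intro x hx
    have h1 : ((h.eval (zR x) : integralClosure ℤ ℂ) : ℂ) =
        ((g.eval (zR x) : integralClosure ℤ ℂ) : ℂ) -
          ((e : ℂ) * ((zR x : integralClosure ℤ ℂ) : ℂ) +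
            (((zR m : integralClosure ℤ ℂ) : ℂ) + (l : ℂ) / α * (w : ℂ) -
              (e : ℂ) * ((zR m : integralClosure ℤ ℂ) : ℂ))) := by
      simp only [h, q, c0, Polynomial.eval_sub, Polynomial.eval_add, Polynomial.eval_mul,
        Polynomial.eval_C, Polynomial.eval_X]
      push_cast
      rw [hκ]
    rw [h1, hev x hx, hz x hx, hz m hm]
    have h2 := hkC x hx
    have h3 := hkC _ (hS x hx)
    push_cast
    field_simp
    linear_combination h3 - (e : ℂ) * h2
  have hroot : ∀ a ∈ A, h.eval (zR a) = 0 := by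
    intro a ha
    obtain ⟨haS, hae⟩ := Finset.mem_filter.1 ha
    have h1 := hval a haS
    rw [hae, sub_self] at h1
    apply Subtype.ext
    simpa using h1
  obtain ⟨hcard, r, hr⟩ := value_dvd h A zR
    (fun x hx y hy => hzinj x (hAS hx) y (hAS hy)) hh0 hroot
  refine ⟨by rw [← hhd]; exact hcard, ?_⟩
  intro x hx
  -- evaluate the factorisation
  have hfac : (l : ℂ) / α * ((k (f.eval x) - (e * k x + w) : ℤ) : ℂ) =
      (∏ a ∈ A, ((l : ℂ) / α * ((k x - k a : ℤ) : ℂ))) *
        ((r.eval (zR x) : integralClosure ℤ ℂ) : ℂ) := by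
    rw [← hval x hx, hr]
    rw [Polynomial.eval_mul, Polynomial.eval_prod]
    push_cast
    congr 1
    apply Finset.prod_congr rfl
    intro a ha
    rw [Polynomial.eval_sub, Polynomial.eval_X, Polynomial.eval_C]
    push_cast
    rw [hz x hx, hz a (hAS ha)]
    have h2 := hkC x hx
    have h3 := hkC a (hAS ha)
    field_simp
    linear_combination h2 - h3
  rw [Finset.prod_mul_distrib, Finset.prod_const] at hfac
  rcases Nat.eq_zero_or_pos A.card with h0 | hpos
  · rw [Finset.card_eq_zero] at h0
    rw [h0]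
    simp
  obtain ⟨n, hn⟩ := Nat.exists_eq_add_of_le hpos
  have hn' : A.card = n + 1 := by omega
  rw [hn', pow_succ] at hfac
  set P : ℤ := ∏ a ∈ A, (k x - k a) with hP
  set Dd : ℤ := k (f.eval x) - (e * k x + w) with hDd
  have hPc : (∏ a ∈ A, ((k x - k a : ℤ) : ℂ)) = (P : ℂ) := by
    rw [hP]
    push_cast
    rfl
  rw [hPc] at hfac
  have hfac2 : (Dd : ℂ) = (P : ℂ) * (((l : ℂ) / α) ^ n *
      ((r.eval (zR x) : integralClosure ℤ ℂ) : ℂ)) := by
    have := mul_left_cancel₀ hκ0 (show (l : ℂ) / α * (Dd : ℂ) = (l : ℂ) / α *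
      ((P : ℂ) * (((l : ℂ) / α) ^ n * ((r.eval (zR x) : integralClosure ℤ ℂ) : ℂ))) by
        rw [hfac]; ring)
    exact this
  by_cases hP0 : P = 0
  · rw [hP0] at hfac2
    have : (Dd : ℂ) = 0 := by rw [hfac2]; simp
    have : Dd = 0 := by exact_mod_cast this
    rw [this]
    exact dvd_zero _
  · have hPc0 : (P : ℂ) ≠ 0 := by exact_mod_cast hP0
    have hqi : IsIntegral ℤ (((Dd : ℚ) / P : ℚ) : ℂ) := by
      have : ((((Dd : ℚ) / P : ℚ)) : ℂ) = ((l : ℂ) / α) ^ n *
          ((r.eval (zR x) : integralClosure ℤ ℂ) : ℂ) := by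
        push_cast
        rw [hfac2]
        field_simp
      rw [this]
      exact (hlint.pow n).mul (r.eval (zR x)).2
    obtain ⟨y, hy⟩ := rat_int _ hqi
    refine ⟨y, ?_⟩
    have hPq : (P : ℚ) ≠ 0 := by exact_mod_cast hP0
    rw [eq_div_iff hPq] at hy
    have : y * P = Dd := by exact_mod_cast hy
    rw [← this]
    ring


/-- from finite invariant sets of preperiodic points to all preperiodic points -/
lemma count {R : Type} [CommRing R] (f : Polynomial R) (B : ℕ)
    (hB : ∀ S : Finset R, (∀ x ∈ S, f.eval x ∈ S) → (∀ x ∈ S, IsPreper f x) → S.card ≤ B) :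
    {x : R | IsPreper f x}.Finite ∧ {x : R | IsPreper f x}.ncard ≤ B := by
  classical
  have hT : ∀ T : Finset R, (∀ x ∈ T, IsPreper f x) → T.card ≤ B := by
    intro T hT
    choose! m n hmn heq using hT
    let S : Finset R := T.biUnion (fun x => (Finset.range (n x)).image
      (fun i => (fun y => f.eval y)^[i] x))
    have hTS : T ⊆ S := by
      intro x hx
      refine Finset.mem_biUnion.2 ⟨x, hx, Finset.mem_image.2 ⟨0, ?_, by simp⟩⟩
      rw [Finset.mem_range]
      have := hmn x hx
      omega
    refine (Finset.card_le_card hTS).trans (hB S ?_ ?_)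
    · intro y hy
      obtain ⟨x, hx, hy⟩ := Finset.mem_biUnion.1 hy
      obtain ⟨i, hi, rfl⟩ := Finset.mem_image.1 hy
      rw [Finset.mem_range] at hi
      refine Finset.mem_biUnion.2 ⟨x, hx, ?_⟩
      have hstep : f.eval ((fun y => f.eval y)^[i] x) = (fun y => f.eval y)^[i + 1] x := by
        rw [Function.iterate_succ_apply']
      rw [hstep]
      rcases Nat.lt_or_ge (i + 1) (n x) with h | h
      · exact Finset.mem_image.2 ⟨i + 1, Finset.mem_range.2 h, rfl⟩
      · have h1 : i + 1 = n x := by omega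
        rw [h1, ← heq x hx]
        exact Finset.mem_image.2 ⟨m x, Finset.mem_range.2 (hmn x hx), rfl⟩
    · intro y hy
      obtain ⟨x, hx, hy⟩ := Finset.mem_biUnion.1 hy
      obtain ⟨i, hi, rfl⟩ := Finset.mem_image.1 hy
      refine ⟨m x, n x, hmn x hx, ?_⟩
      rw [← Function.iterate_add_apply, ← Function.iterate_add_apply, add_comm (m x),
        add_comm (n x), Function.iterate_add_apply, Function.iterate_add_apply, heq x hx]
  have hfin : {x : R | IsPreper f x}.Finite := by
    by_contra hinf
    obtain ⟨t, ht, hc⟩ := Set.Infinite.exists_subset_card_eq hinf (B + 1)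
    have := hT t (fun x hx => ht hx)
    omega
  refine ⟨hfin, ?_⟩
  rw [Set.ncard_eq_toFinset_card _ hfin]
  exact hT _ (fun x hx => by simpa using hx)

/-- upper bound in the case of potentially good reduction -/
lemma upper (f : Polynomial ℚ) (d : ℕ) (hd : 2 ≤ d) (hf : f.natDegree = d) (hgood : PotGood f) :
    {x : ℚ | IsPreper f x}.Finite ∧ {x : ℚ | IsPreper f x}.ncard ≤ max 5 d := by
  obtain ⟨α, β, g, hα, hu, heq⟩ := hgood
  have hinj : Function.Injective (algebraMap (integralClosure ℤ ℂ) ℂ) :=
    FaithfulSMul.algebraMap_injective _ _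
  have hlin : (Polynomial.C α * Polynomial.X + Polynomial.C β).natDegree = 1 :=
    Polynomial.natDegree_linear hα
  have hgd : g.natDegree = d := by
    have h1 := congrArg Polynomial.natDegree heq
    rw [Polynomial.natDegree_comp, hlin, mul_one, Polynomial.natDegree_add_C,
      Polynomial.natDegree_C_mul hα, Polynomial.natDegree_map_eq_of_injective hinj,
      Polynomial.natDegree_map_eq_of_injective (FaithfulSMul.algebraMap_injective ℚ ℂ), hf] at h1
    exact h1.symm
  have hfg : ∀ x : ℚ, ((f.eval x : ℚ) : ℂ) =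
      α * (g.map (algebraMap (integralClosure ℤ ℂ) ℂ)).eval (((x : ℂ) - β) / α) + β := by
    intro x
    have h1 := congrArg (Polynomial.eval (((x : ℂ) - β) / α)) heq
    rw [Polynomial.eval_comp] at h1
    simp only [Polynomial.eval_add, Polynomial.eval_mul, Polynomial.eval_C,
      Polynomial.eval_X] at h1
    rw [← h1]
    have h2 : α * (((x : ℂ) - β) / α) + β = (x : ℂ) := by
      field_simp
      ring
    rw [h2]
    exact (Polynomial.eval_map_apply (f := algebraMap ℚ ℂ) (p := f) x).symm
  have hiter : ∀ (n : ℕ) (x : ℚ), ((((fun y => f.eval y)^[n] x : ℚ) : ℂ) - β) / α =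
      (fun y => (g.map (algebraMap (integralClosure ℤ ℂ) ℂ)).eval y)^[n]
        (((x : ℂ) - β) / α) := by
    intro n
    induction n with
    | zero => intro x; simp
    | succ n ih =>
      intro x
      rw [Function.iterate_succ_apply, Function.iterate_succ_apply, ih, hfg x]
      congr 1
      field_simp
      ring
  apply count f (max 5 d)
  intro S hS hpre
  apply bound f d hd α β hα g hgd hfg S hS
  intro x hx
  obtain ⟨m, n, hmn, h⟩ := hpre x hx
  apply preper_integral g hu (by omega) _ m n hmn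
  rw [← hiter, ← hiter, h]

/-- integral polynomials with leading coefficient one have potentially good reduction -/
lemma potGood_monic (f : Polynomial ℤ) (hf : f.Monic) :
    PotGood (f.map (algebraMap ℤ ℚ)) := by
  refine ⟨1, 0, f.map (algebraMap ℤ (integralClosure ℤ ℂ)), one_ne_zero, ?_, ?_⟩
  · rw [(hf.map _).leadingCoeff]
    exact isUnit_one
  · rw [Polynomial.map_map, Polynomial.map_map]
    have h1 : (algebraMap ℚ ℂ).comp (algebraMap ℤ ℚ) = algebraMap ℤ ℂ := RingHom.ext_int _ _
    have h2 : (algebraMap (integralClosure ℤ ℂ) ℂ).comp (algebraMap ℤ (integralClosure ℤ ℂ)) =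
        algebraMap ℤ ℂ := RingHom.ext_int _ _
    rw [h1, h2]
    simp


/-- extremal examples -/
lemma exists_sharp (d : ℕ) (hd : 2 ≤ d) : ∃ f : Polynomial ℤ, f.Monic ∧ f.natDegree = d ∧
    ∃ T : Finset ℤ, T.card = max 5 d ∧ ∀ x ∈ T, IsPreper f x := by
  classical
  rcases Nat.lt_or_ge 4 d with h | h
  · have hm : (∏ i ∈ Finset.range d,
        (Polynomial.X - Polynomial.C (i : ℤ))).Monic :=
      Polynomial.monic_prod_of_monic _ _ (fun i _ => Polynomial.monic_X_sub_C _)
    refine ⟨∏ i ∈ Finset.range d, (Polynomial.X - Polynomial.C (i : ℤ)), hm, ?_,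
      (Finset.range d).image (fun i : ℕ => (i : ℤ)), ?_, ?_⟩
    · rw [Polynomial.natDegree_prod_of_monic _ _ (fun i _ => Polynomial.monic_X_sub_C _)]
      have h1 : ∀ i ∈ Finset.range d,
          ((Polynomial.X : Polynomial ℤ) - Polynomial.C (i : ℤ)).natDegree = 1 :=
        fun i _ => Polynomial.natDegree_X_sub_C (i : ℤ)
      rw [Finset.sum_congr rfl h1]
      simp
    · rw [Finset.card_image_of_injective _ Nat.cast_injective, Finset.card_range]
      omega
    · intro x hx
      obtain ⟨i, hi, rfl⟩ := Finset.mem_image.1 hx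
      have hz : ∀ j ∈ Finset.range d, (∏ i ∈ Finset.range d,
          (Polynomial.X - Polynomial.C (i : ℤ))).eval (j : ℤ) = 0 := by
        intro j hj
        rw [Polynomial.eval_prod]
        exact Finset.prod_eq_zero hj (by simp)
      have h0 : (0 : ℕ) ∈ Finset.range d := Finset.mem_range.2 (by omega)
      refine ⟨1, 2, by norm_num, ?_⟩
      have h1 := hz i hi
      have h2 := hz 0 h0
      rw [Nat.cast_zero] at h2
      simp only [Function.iterate_succ, Function.iterate_zero, Function.comp_apply, id]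
      rw [h1, h2]
  · have hd' : d = 2 ∨ d = 3 ∨ d = 4 := by omega
    rcases hd' with rfl | rfl | rfl
    · refine ⟨Polynomial.X ^ 2 - Polynomial.C 2, ?_, ?_, {-2, -1, 0, 1, 2}, by decide, ?_⟩
      · exact Polynomial.monic_X_pow_sub_C _ (by norm_num)
      · exact Polynomial.natDegree_X_pow_sub_C
      · intro x hx
        refine ⟨2, 3, by norm_num, ?_⟩
        simp only [Finset.mem_insert, Finset.mem_singleton] at hx
        rcases hx with rfl | rfl | rfl | rfl | rfl <;> norm_num [Function.iterate_succ]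
    · refine ⟨Polynomial.X ^ 3 - Polynomial.C 3 * Polynomial.X, ?_, ?_,
        {-2, -1, 0, 1, 2}, by decide, ?_⟩
      · monicity!
      · compute_degree!
      · intro x hx
        refine ⟨2, 3, by norm_num, ?_⟩
        simp only [Finset.mem_insert, Finset.mem_singleton] at hx
        rcases hx with rfl | rfl | rfl | rfl | rfl <;> norm_num [Function.iterate_succ]
    · refine ⟨Polynomial.X ^ 4 - Polynomial.C 4 * Polynomial.X ^ 2 + Polynomial.C 2, ?_, ?_,
        {-2, -1, 0, 1, 2}, by decide, ?_⟩
      · monicity!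
      · compute_degree!
      · intro x hx
        refine ⟨2, 3, by norm_num, ?_⟩
        simp only [Finset.mem_insert, Finset.mem_singleton] at hx
        rcases hx with rfl | rfl | rfl | rfl | rfl <;> norm_num [Function.iterate_succ]

lemma preper_cast (f : Polynomial ℤ) (x : ℤ) (h : IsPreper f x) :
    IsPreper (f.map (algebraMap ℤ ℚ)) (x : ℚ) := by
  have hiter : ∀ (n : ℕ) (x : ℤ), (((fun y => f.eval y)^[n] x : ℤ) : ℚ) =
      (fun y => (f.map (algebraMap ℤ ℚ)).eval y)^[n] (x : ℚ) := by
    intro n
    induction n with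
    | zero => intro x; simp
    | succ n ih =>
      intro x
      rw [Function.iterate_succ_apply, Function.iterate_succ_apply, ih]
      congr 1
      exact (Polynomial.eval_map_apply (f := algebraMap ℤ ℚ) (p := f) x).symm
  obtain ⟨m, n, hmn, h⟩ := h
  exact ⟨m, n, hmn, by rw [← hiter, ← hiter, h]⟩

/-- A polynomial over `ℚ` of degree `d ≥ 2` with everywhere potentially good reduction has at
most `max 5 d` rational preperiodic points, and this is attained for every `d`, by a monic
polynomial over `ℤ`. -/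
theorem result :
    (∀ (d : ℕ) (f : Polynomial ℚ), 2 ≤ d → f.natDegree = d → PotGood f →
      {x : ℚ | IsPreper f x}.Finite ∧ {x : ℚ | IsPreper f x}.ncard ≤ max 5 d) ∧
    (∀ d : ℕ, 2 ≤ d → ∃ f : Polynomial ℤ, f.Monic ∧ f.natDegree = d ∧
      PotGood (f.map (algebraMap ℤ ℚ)) ∧
      {x : ℚ | IsPreper (f.map (algebraMap ℤ ℚ)) x}.ncard = max 5 d) := by
  classical
  refine ⟨fun d f hd hf hg => upper f d hd hf hg, ?_⟩
  intro d hd
  obtain ⟨f, hm, hf, T, hT, hTp⟩ := exists_sharp d hd
  have hg := potGood_monic f hm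
  have hdeg : (f.map (algebraMap ℤ ℚ)).natDegree = d := by
    rw [hm.natDegree_map, hf]
  obtain ⟨hfin', hle'⟩ := upper _ d hd hdeg hg
  refine ⟨f, hm, hf, hg, le_antisymm hle' ?_⟩
  have h1 : (T.image (fun x : ℤ => (x : ℚ))).card = T.card :=
    Finset.card_image_of_injective _ Int.cast_injective
  rw [← hT, ← h1, ← Set.ncard_coe_finset]
  refine Set.ncard_le_ncard ?_ hfin'
  intro y hy
  obtain ⟨x, hx, rfl⟩ := Finset.mem_image.1 (Finset.mem_coe.1 hy)
  exact preper_cast f x (hTp x hx)

end Pool.Agent.Results.MP_c076ed_nt.PotGoodSharp
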