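import Mathlib
import Pool.Agent.H892.PGR.Count

/-!
# MP_c076ed_nt: maps over `ℚ` with everywhere potentially good reduction

Let `f = [F : G]` be a self-map of the projective line of degree `d ≥ 2` over `ℚ` which has
potentially good reduction at every prime `p` (`Pool.Agent.H892.PGR.PotGood`).  Then `f` has at most
`d ^ 96 + d ^ 84 + 1` rational preperiodic points, and every rational periodic point of `f` has
exact period `1, 2, 3, 4` or `6`.

Proof.  In the good coordinates at `p` the chordal distance does not increase under `f`.  The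
Plücker relation `c₁ - c₂ + c₃ = 0` between four rational points has `p`-adic absolute values given
by products of these distances, up to a common factor, and rational numbers with the same `p`-adic
absolute values for all `p` agree up to sign.  Applied to four points of a cycle this excludes the
periods `8, 9, 12` and all primes `≥ 5`; applied to the points number `0, 1, 2, 4, 8` of a tail
ending in a fixed point of `f ^ 12` it bounds the length of the tail by `7`.
-/

set_option autoImplicit false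

open MvPolynomial Pool.Agent.H892.PGR

namespace Pool.Agent.Results.MP_c076ed_nt.PotentiallyGoodReduction

lemma fX_iter {F G : MvPolynomial (Fin 2) ℚ} {d : ℕ} (hF : F.IsHomogeneous d)
    (hG : G.IsHomogeneous d) (h0 : ∀ v : Fin 2 → ℚ, v ≠ 0 → Phi F G v ≠ 0) (v : Fin 2 → ℚ)
    (hv : v ≠ 0) (k : ℕ) :
    ∃ hk : (Phi F G)^[k] v ≠ 0, (fX F G h0)^[k] (Projectivization.mk ℚ v hv) =
      Projectivization.mk ℚ ((Phi F G)^[k] v) hk := by
  induction k with
  | zero => exact ⟨hv, rfl⟩
  | succ k ih =>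
    obtain ⟨hk, ih⟩ := ih
    have e : (Phi F G)^[k + 1] v = Phi F G ((Phi F G)^[k] v) :=
      Function.iterate_succ_apply' _ _ _
    refine ⟨by rw [e]; exact h0 _ hk, ?_⟩
    rw [Function.iterate_succ_apply', ih, fX_mk hF hG h0 _ hk]
    simp only [e]

theorem result (d : ℕ) (hd : 2 ≤ d) (F G : MvPolynomial (Fin 2) ℚ)
    (hF : F.IsHomogeneous d) (hG : G.IsHomogeneous d)
    (h : ∀ x : Fin 2 → AlgebraicClosure ℚ, x ≠ 0 →
      ¬ (MvPolynomial.aeval x F = 0 ∧ MvPolynomial.aeval x G = 0))
    (hp : ∀ p : ℕ, p.Prime → PotGood F G d p) :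
    (∀ S : Finset (Projectivization ℚ (Fin 2 → ℚ)),
      (∀ P ∈ S, ∃ v : Fin 2 → ℚ, ∃ hv : v ≠ 0, Projectivization.mk ℚ v hv = P ∧
        ∃ m n : ℕ, m < n ∧ ∃ c : ℚ, c ≠ 0 ∧
          (fun w : Fin 2 → ℚ => ![MvPolynomial.eval w F, MvPolynomial.eval w G])^[n] v =
            c • (fun w : Fin 2 → ℚ => ![MvPolynomial.eval w F, MvPolynomial.eval w G])^[m] v) →
      S.card ≤ d ^ 96 + d ^ 84 + 1) ∧
    (∀ v : Fin 2 → ℚ, v ≠ 0 → ∀ n : ℕ, 0 < n →
      (∃ c : ℚ, c ≠ 0 ∧
        (fun w : Fin 2 → ℚ => ![MvPolynomial.eval w F, MvPolynomial.eval w G])^[n] v = c • v) →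
      (∀ m : ℕ, 0 < m → m < n → ¬ ∃ c : ℚ, c ≠ 0 ∧
        (fun w : Fin 2 → ℚ => ![MvPolynomial.eval w F, MvPolynomial.eval w G])^[m] v = c • v) →
      n = 1 ∨ n = 2 ∨ n = 3 ∨ n = 4 ∨ n = 6) := by
  have h0 : ∀ v : Fin 2 → ℚ, v ≠ 0 → Phi F G v ≠ 0 := by
    intro v hv hz
    apply nz_rat h v hv
    rw [aev, aev]
    exact ⟨congrFun hz 0, congrFun hz 1⟩
  obtain ⟨S, hS⟩ := exists_sys h0 hp
  constructor
  · intro T hT
    apply count hd hF hG h (m := 96) (n := 84) (by norm_num)
    intro x hx
    obtain ⟨v, hv, hvx, m, n, hmn, c, hc, hcv⟩ := hT x hx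
    have hcv' : (Phi F G)^[n] v = c • (Phi F G)^[m] v := hcv
    obtain ⟨hn', en⟩ := fX_iter hF hG h0 v hv n
    obtain ⟨hm', em⟩ := fX_iter hF hG h0 v hv m
    have hpre : (fX F G h0)^[m] x = (fX F G h0)^[n] x := by
      rw [← hvx, em, en, Projectivization.mk_eq_mk_iff']
      exact ⟨c⁻¹, by rw [hcv', smul_smul, inv_mul_cancel₀ hc, one_smul]⟩
    have h96 := preper hS hmn hpre
    obtain ⟨h1, e1⟩ := fX_iter hF hG h0 x.rep x.rep_nonzero 96
    obtain ⟨h2, e2⟩ := fX_iter hF hG h0 x.rep x.rep_nonzero 84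
    rw [Projectivization.mk_rep] at e1 e2
    rw [br_zero_iff h1 h2, ← e1, ← e2]
    exact h96
  · intro v hv n hn ⟨c, hc, hcv⟩ hmin
    have hcv' : (Phi F G)^[n] v = c • v := hcv
    set x := Projectivization.mk ℚ v hv with hx
    have hper : Function.IsPeriodicPt (fX F G h0) n x := by
      obtain ⟨hn', en⟩ := fX_iter hF hG h0 v hv n
      unfold Function.IsPeriodicPt Function.IsFixedPt
      rw [hx, en, Projectivization.mk_eq_mk_iff']
      exact ⟨c, hcv'.symm⟩
    have hpos := hper.minimalPeriod_pos hn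
    have hle := hper.minimalPeriod_le hn
    have hmp : Function.minimalPeriod (fX F G h0) x = n := by
      by_contra hne
      have hlt : Function.minimalPeriod (fX F G h0) x < n := lt_of_le_of_ne hle hne
      apply hmin _ hpos hlt
      have h1 := Function.isPeriodicPt_minimalPeriod (fX F G h0) x
      unfold Function.IsPeriodicPt Function.IsFixedPt at h1
      set m := Function.minimalPeriod (fX F G h0) x
      obtain ⟨hm', em⟩ := fX_iter hF hG h0 v hv m
      rw [hx, em, Projectivization.mk_eq_mk_iff'] at h1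
      obtain ⟨a, ha⟩ := h1
      refine ⟨a, ?_, ha.symm⟩
      rintro rfl
      rw [zero_smul] at ha
      exact hm' ha.symm
    exact cycles hS hmp hn

end Pool.Agent.Results.MP_c076ed_nt.PotentiallyGoodReduction
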